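import Pool.Agent.H.MP_9159b8_an.F

set_option autoImplicit false

namespace Pool.Agent.Results.MP_9159b8_an.ThreeCurves

open Pool.Agent.H.MP_9159b8_an Complex Filter Topology Set Metric Real MeasureTheory in
theorem result : ∃ (Ω : Set ℂ) (γ : Fin 3 → ℝ → ℂ),
    IsOpen Ω ∧ IsConnected Ω ∧ Bornology.IsBounded Ω ∧
    (∀ j, AnalyticOnNhd ℝ (γ j) Set.univ) ∧ (∀ j, Function.Periodic (γ j) 1) ∧
    (∀ j, Set.InjOn (γ j) (Set.Ico 0 1)) ∧ (∀ j t, deriv (γ j) t ≠ 0) ∧
    (∀ i j, i ≠ j → Disjoint (Set.range (γ i)) (Set.range (γ j))) ∧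
    frontier Ω = ⋃ j, Set.range (γ j) ∧
    ∀ f : ℂ → ℂ, DifferentiableOn ℂ f Ω → ContinuousOn f (closure Ω) →
      (MeasureTheory.volume Ω).toReal⁻¹ * ∫ z in Ω, (f z).re =
        (∑ j, ∫ t in (0:ℝ)..1, ‖deriv (γ j) t‖)⁻¹ *
          ∑ j, ∫ t in (0:ℝ)..1, (f (γ j t)).re * ‖deriv (γ j) t‖ := by
  obtain ⟨r, l, φ, R, S, hr, l0, inj, hK, b1, b2⟩ := main
  have p2 := Real.two_pi_pos
  set σ : Fin 3 → ℂ := Fin.cons 1 fun _ => -1 with hσ
  have bd : ∀ j (s : ℂ), ‖s‖ = rr r j → (R (c j + s) * (starRingEnd ℂ) (φ (c j + s)) -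
      S (c j + s)) * s = σ j * (l * rr r j * (starRingEnd ℂ) (R (c j + s))) := fun j s =>
    Fin.cases (fun h => by simpa [c, hσ, rr] using b1 s h)
      (fun j h => by simpa [c, hσ, rr] using b2 j s h) j
  set w : Fin 3 → ℝ → ℂ := fun j t => circleMap (c j) (rr r j) (2 * π * t) with hw
  have ws : ∀ j t, w j t ∈ sphere (c j) (rr r j) := fun j t =>
    circleMap_mem_sphere _ (r0' hr j).le _
  have wK : ∀ j t, w j t ∈ K r := fun j t => (sK hr j (ws j t)).1
  have rg : ∀ j, range (fun t => φ (w j t)) = φ '' sphere (c j) (rr r j) := fun j => by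
    rw [← abs_of_pos (r0' hr j), ← range_circleMap, ← range_comp]
    exact (mul_left_surjective₀ p2.ne').range_comp (φ ∘ circleMap (c j) (rr r j))
  have dv : ∀ j t, deriv (fun t => φ (w j t)) t =
      R (w j t) ^ 2 * ((2 * π : ℝ) • (circleMap 0 (rr r j) (2 * π * t) * I)) := fun j t =>
    ((hK _ (wK j t)).2.1.comp_of_eq t ((hasDerivAt_circleMap (c j) (rr r j) _).scomp t
      ((hasDerivAt_id t).const_mul (2 * π))) rfl).deriv.trans (by simp)
  have o : IsOpen (φ '' V r) := isOpen_iff_mem_nhds.2 (by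
    rintro _ ⟨z, hz, rfl⟩
    have k := hK z (VK hz)
    rw [← k.1.hasStrictDerivAt.map_nhds_eq (k.2.1.deriv ▸ pow_ne_zero 2 k.2.2.1)]
    exact image_mem_map ((Vo _).mem_nhds hz))
  have cφ : ContinuousOn φ (K r) := fun z hz => (hK z hz).1.continuousAt.continuousWithinAt
  have cK := (Kc r).image_of_continuousOn cφ
  have cl : closure (φ '' V r) = φ '' K r := by
    refine (closure_minimal (image_mono VK) cK.isClosed).antisymm ?_
    rintro _ ⟨z, hz, rfl⟩
    by_cases b : z ∈ V r
    · exact subset_closure ⟨z, b, rfl⟩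
    · obtain ⟨j, hj⟩ := Ks hz b
      exact (hK z hz).1.continuousAt.continuousWithinAt.mem_closure_image (sK hr j hj).2.2.1
  have an : ∀ j, AnalyticOnNhd ℝ (fun t => φ (w j t)) univ := fun j t _ =>
    ((hK _ (wK j t)).1.restrictScalars (𝕜 := ℝ)).fun_comp_of_eq
      ((analyticOnNhd_circleMap _ _ _ trivial).fun_comp (analyticAt_const.mul analyticAt_id)) rfl
  have key : ∀ f : ℂ → ℂ, DifferentiableOn ℂ f (φ '' V r) → ContinuousOn f (closure (φ '' V r)) →
      ∫ z in φ '' V r, (f z).re =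
        l / 2 * ∑ j, ∫ t in (0:ℝ)..1, (f (φ (w j t))).re * ‖deriv (fun t => φ (w j t)) t‖ := by
    intro f h1 h2
    rw [cl] at h2
    have cf := h2.comp cφ (mapsTo_image _ _)
    have A := area hr inj hK (fun v hv => h1.differentiableAt (o.mem_nhds ⟨v, hv, rfl⟩)) cf
    have E : ∀ j, (∮ z in C(c j, rr r j), f (φ z) * R z * (R z * (starRingEnd ℂ) (φ z) - S z)) =
        σ j * I * l * ∫ t in (0:ℝ)..1, f (φ (w j t)) * ‖deriv (fun t => φ (w j t)) t‖ := fun j => by
      have e := intervalIntegral.smul_integral_comp_mul_left (a := 0) (b := 1) (fun θ =>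
        deriv (circleMap (c j) (rr r j)) θ • (fun z => f (φ z) * R z *
          (R z * (starRingEnd ℂ) (φ z) - S z)) (circleMap (c j) (rr r j) θ)) (2 * π)
      rw [mul_zero, mul_one] at e
      rw [circleIntegral, ← e, ← intervalIntegral.integral_smul,
        ← intervalIntegral.integral_const_mul]
      refine intervalIntegral.integral_congr fun t _ => ?_
      have n : ‖circleMap 0 (rr r j) (2 * π * t)‖ = rr r j := by
        rw [norm_circleMap_zero, abs_of_pos (r0' hr j)]
      have b := bd j _ n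
      have v : c j + circleMap 0 (rr r j) (2 * π * t) = w j t := by simp [hw, circleMap]
      simp only [dv, deriv_circleMap, v, norm_mul, norm_pow, norm_smul, n, norm_I,
        Real.norm_of_nonneg p2.le, show circleMap (c j) (rr r j) (2 * π * t) = w j t from rfl]
        at b ⊢
      simp only [smul_eq_mul, real_smul, ofReal_mul, ofReal_pow, ← mul_conj', ofReal_one]
      linear_combination (I * (((2:ℝ) : ℂ) * π) * f (φ (w j t)) * R (w j t) : ℂ) * b
    have E0 := E 0
    have E1 := fun j : Fin 2 => E j.succ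
    simp only [c, rr, hσ, Fin.cons_zero, Fin.cons_succ] at E0 E1
    simp only [E0, E1] at A
    have B : ∫ z in φ '' V r, f z = (l / 2 : ℝ) *
        ∑ j, ∫ t in (0:ℝ)..1, f (φ (w j t)) * ‖deriv (fun t => φ (w j t)) t‖ := by
      rw [Fin.sum_univ_succ, ofReal_div, ofReal_ofNat]
      simp only [Fin.sum_univ_two] at A ⊢
      refine mul_left_cancel₀ (mul_ne_zero two_ne_zero I_ne_zero) ?_
      linear_combination -A
    have i1 : IntegrableOn f (φ '' V r) := (h2.integrableOn_compact cK).mono_set (image_mono VK)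
    rw [show ∫ z in φ '' V r, (f z).re = _ from integral_re i1, B]
    simp only [RCLike.re_to_complex, re_ofReal_mul, re_sum]
    congr 2; ext j
    have cw : Continuous (w j) := by simp only [hw]; fun_prop
    refine (reCLM.intervalIntegral_comp_comm (μ := volume) (Continuous.intervalIntegrable
      ((cf.comp_continuous cw (wK j)).mul (continuous_ofReal.comp
      (continuousOn_univ.1 (an j).deriv.continuousOn).norm)) 0 1)).symm.trans ?_
    simp
  refine ⟨φ '' V r, fun j t => φ (w j t), o, (Vc hr).image _ (cφ.mono VK),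
    cK.isBounded.subset (image_mono VK), an,
    fun j t => by simp only [hw, mul_add, mul_one, periodic_circleMap _ _ _],
    fun j s hs t ht h => mul_left_cancel₀ p2.ne' (injOn_circleMap_of_abs_sub_le' (a := 0)
      (b := 2 * π) (r0' hr j).ne' (by simp) ⟨by nlinarith [hs.1], by nlinarith [hs.2]⟩
      ⟨by nlinarith [ht.1], by nlinarith [ht.2]⟩ (inj (wK j s) (wK j t) h)),
    fun j t => ?_, fun i j n => disjoint_left.2 ?_, ?_, fun f h1 h2 => ?_⟩
  · rw [dv]
    exact mul_ne_zero (pow_ne_zero 2 (hK _ (wK j t)).2.2.1) (smul_ne_zero p2.ne'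
      (mul_ne_zero (circleMap_ne_center (r0' hr j).ne') I_ne_zero))
  · rintro _ ⟨s, rfl⟩ ⟨t, h⟩
    exact n ((sK hr j (ws j t)).2.2.2 i (inj (wK j t) (wK i s) h ▸ ws i s))
  · rw [o.frontier_eq, cl]
    simp only [rg]
    ext z
    constructor
    · rintro ⟨⟨v, hv, rfl⟩, n⟩
      obtain ⟨j, hj⟩ := Ks hv fun b => n ⟨v, b, rfl⟩
      exact mem_iUnion.2 ⟨j, v, hj, rfl⟩
    · intro h
      obtain ⟨j, v, hv, rfl⟩ := mem_iUnion.1 h
      exact ⟨⟨v, (sK hr j hv).1, rfl⟩, fun ⟨u, hu, e⟩ =>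
        (sK hr j hv).2.1 (inj (VK hu) (sK hr j hv).1 e ▸ hu)⟩
  · have k := key (fun _ => 1) (differentiableOn_const _) continuousOn_const
    simp only [one_re, one_mul, integral_const, smul_eq_mul, mul_one, measureReal_def,
      Measure.restrict_apply_univ] at k
    rw [key f h1 h2, k, mul_inv, mul_mul_mul_comm, inv_mul_cancel₀ (div_ne_zero l0 two_ne_zero),
      one_mul]

end Pool.Agent.Results.MP_9159b8_an.ThreeCurves
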